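import Mathlib

/-!
The first-order language of rings with a constant symbol `t`, and its interpretation in `F[X]`.
-/

set_option autoImplicit false

namespace Pool.Agent.H58.UED

open Polynomial FirstOrder

/-- The function symbols `0, 1, t, -, +, *` (here `-` is unary). -/
inductive RtFunc : ℕ → Type
  | zero : RtFunc 0
  | one : RtFunc 0
  | t : RtFunc 0
  | neg : RtFunc 1
  | add : RtFunc 2
  | mul : RtFunc 2

/-- The language of rings with a constant symbol `t`: no relation symbols besides equality. -/
def Lrt : Language := ⟨RtFunc, fun _ => Empty⟩

/-- The polynomial ring `F[X]` as a structure for the language, the constant `t` being `X`. -/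
noncomputable def polyStructure (F : Type) [Field F] : Lrt.Structure F[X] where
  funMap := fun {_} f v => match f, v with
    | RtFunc.zero, _ => 0
    | RtFunc.one, _ => 1
    | RtFunc.t, _ => Polynomial.X
    | RtFunc.neg, v => - v 0
    | RtFunc.add, v => v 0 + v 1
    | RtFunc.mul, v => v 0 * v 1
  RelMap := fun {_} r _ => r.elim

/-- `φ(x, y)` holds in `F[X]` for the pair `(f, g)`. -/
def Holds (F : Type) [Field F] (φ : Lrt.Formula (Fin 2)) (f g : F[X]) : Prop :=
  @Language.Formula.Realize Lrt F[X] (polyStructure F) (Fin 2) φ ![f, g]

end Pool.Agent.H58.UED
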