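import Mathlib

/-!
The quadratic form `a ^ 2 + t g a b + t f ^ 2 b ^ 2` and the comparison of degrees (as in the
proof of the frozen statement S14977).
-/

set_option autoImplicit false

namespace Pool.Agent.H58.UED

open Polynomial

section forms

variable {F : Type*} [Field F]

/-- The binary quadratic form `a ^ 2 + t g a b + t f ^ 2 b ^ 2` over `F[t]`. -/
noncomputable def Q (f g a b : F[X]) : F[X] :=
  a ^ 2 + X * g * a * b + X * f ^ 2 * b ^ 2

/-- If `deg g < deg f`, the form `Q f g` takes only values of positive degree at `b ≠ 0`. -/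
lemma natDegree_Q_pos (f g a b : F[X]) (h : g.degree < f.degree) (hb : b ≠ 0) :
    0 < (Q f g a b).natDegree := by
  have hf : f ≠ 0 := by
    rintro rfl
    simp at h
  have h3 : (X * f ^ 2 * b ^ 2).natDegree = 1 + 2 * f.natDegree + 2 * b.natDegree := by
    rw [natDegree_mul (mul_ne_zero X_ne_zero (pow_ne_zero _ hf)) (pow_ne_zero _ hb),
      natDegree_mul X_ne_zero (pow_ne_zero _ hf), natDegree_X, natDegree_pow, natDegree_pow]
  have h1 : (a ^ 2).natDegree = 2 * a.natDegree := by
    rw [natDegree_pow]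
  have h2 : (X * g * a * b).natDegree ≤ f.natDegree + a.natDegree + b.natDegree := by
    by_cases hg : g = 0
    · simp [hg]
    by_cases ha : a = 0
    · simp [ha]
    rw [natDegree_mul (mul_ne_zero (mul_ne_zero X_ne_zero hg) ha) hb,
      natDegree_mul (mul_ne_zero X_ne_zero hg) ha, natDegree_mul X_ne_zero hg, natDegree_X]
    have : g.natDegree < f.natDegree := natDegree_lt_natDegree hg h
    omega
  unfold Q
  rcases lt_or_ge (f.natDegree + b.natDegree) a.natDegree with hlt | hge
  · have hA : (a ^ 2 + X * g * a * b).natDegree = 2 * a.natDegree := by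
      rw [natDegree_add_eq_left_of_natDegree_lt, h1]
      rw [h1]
      omega
    rw [natDegree_add_eq_left_of_natDegree_lt, hA]
    · omega
    · rw [hA, h3]
      omega
  · have hA : (a ^ 2 + X * g * a * b).natDegree < 1 + 2 * f.natDegree + 2 * b.natDegree := by
      refine lt_of_le_of_lt (natDegree_add_le _ _) ?_
      rw [h1]
      rw [max_lt_iff]
      omega
    rw [natDegree_add_eq_right_of_natDegree_lt, h3]
    · omega
    · rw [h3]
      exact hA

/-- Approximate roots: if `deg f ≤ deg g` and `g ≠ 0` then for each `k` there is `B` with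
`deg B ≤ k + deg g` and `deg Q(B, t ^ k) ≤ k + deg g`. -/
lemma exists_approx_aux (f g : F[X]) (hg : g ≠ 0) (hfg : f.natDegree ≤ g.natDegree) (k : ℕ) :
    ∀ j : ℕ, j ≤ k + g.natDegree + 1 → ∃ B : F[X], B.natDegree ≤ k + g.natDegree ∧
      ((Q f g B (X ^ k)).natDegree ≤ 2 * (k + g.natDegree) + 1 - j) := by
  intro j
  induction j with
  | zero =>
    intro _
    refine ⟨0, by simp, ?_⟩
    have : Q f g 0 (X ^ k) = X * f ^ 2 * (X ^ k) ^ 2 := by
      unfold Q
      ring
    rw [this]
    refine (natDegree_mul_le).trans ?_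
    refine (add_le_add (natDegree_mul_le) le_rfl).trans ?_
    rw [natDegree_X, natDegree_pow, natDegree_pow, natDegree_X_pow]
    omega
  | succ j ih =>
    intro hj
    obtain ⟨B, hB, hQ⟩ := ih (by omega)
    set d := g.natDegree with hd
    set M := 2 * (k + d) + 1 - j with hM
    obtain ⟨i, hi⟩ : ∃ i, M = i + 1 + k + d := ⟨M - (k + d) - 1, by omega⟩
    set c : F := (Q f g B (X ^ k)).coeff M / g.leadingCoeff with hc
    have hlc : g.leadingCoeff ≠ 0 := leadingCoeff_ne_zero.mpr hg
    refine ⟨B - C c * X ^ i, ?_, ?_⟩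
    · refine (natDegree_sub_le _ _).trans ?_
      rw [max_le_iff]
      refine ⟨hB, (natDegree_C_mul_X_pow_le _ _).trans ?_⟩
      omega
    · have hexp : Q f g (B - C c * X ^ i) (X ^ k) =
          Q f g B (X ^ k) - C c * (X ^ (i + 1 + k) * g) + (C (c ^ 2) * X ^ (2 * i)
            - C 2 * (B * (C c * X ^ i))) := by
        unfold Q
        simp only [C_pow, map_ofNat]
        ring
      rw [hexp]
      have hsmall : (C (c ^ 2) * X ^ (2 * i) - C 2 * (B * (C c * X ^ i))).natDegree ≤ M - 1 := by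
        refine (natDegree_sub_le _ _).trans ?_
        rw [max_le_iff]
        constructor
        · refine (natDegree_C_mul_X_pow_le _ _).trans ?_
          omega
        · refine (natDegree_C_mul_le _ _).trans ?_
          refine (natDegree_mul_le).trans ?_
          refine (add_le_add hB (natDegree_C_mul_X_pow_le _ _)).trans ?_
          omega
      have hbig : (Q f g B (X ^ k) - C c * (X ^ (i + 1 + k) * g)).natDegree ≤ M - 1 := by
        rw [natDegree_le_iff_coeff_eq_zero]
        intro N hN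
        rcases Nat.lt_or_ge M N with h | h
        · rw [coeff_sub, coeff_eq_zero_of_natDegree_lt (lt_of_le_of_lt hQ h), coeff_C_mul,
            coeff_X_pow_mul', zero_sub, neg_eq_zero]
          split_ifs
          · rw [coeff_eq_zero_of_natDegree_lt, mul_zero]
            omega
          · rw [mul_zero]
        · have hNM : N = M := by omega
          subst hNM
          rw [coeff_sub, coeff_C_mul, coeff_X_pow_mul', if_pos (by omega)]
          have : M - (i + 1 + k) = g.natDegree := by omega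
          rw [this, coeff_natDegree, hc, div_mul_cancel₀ _ hlc, sub_self]
      refine (natDegree_add_le _ _).trans ?_
      rw [max_le_iff]
      constructor
      · exact hbig.trans (by omega)
      · exact hsmall.trans (by omega)

lemma exists_approx (f g : F[X]) (hg : g ≠ 0) (hfg : f.natDegree ≤ g.natDegree) (k : ℕ) :
    ∃ B : F[X], B.natDegree ≤ k + g.natDegree ∧
      ((Q f g B (X ^ k)).natDegree ≤ k + g.natDegree) := by
  obtain ⟨B, h1, h2⟩ := exists_approx_aux f g hg hfg k (k + g.natDegree + 1) le_rfl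
  exact ⟨B, h1, h2.trans (by omega)⟩

/-- Linear algebra: a nonzero `Y` of degree `≤ n` with the middle coefficients of `B * Y` zero. -/
lemma exists_kernel (B : F[X]) (n : ℕ) :
    ∃ Y : F[X], Y ≠ 0 ∧ Y.natDegree ≤ n ∧ ∀ i : ℕ, n ≤ i → i < 2 * n → (B * Y).coeff i = 0 := by
  classical
  let L : (degreeLT F (n + 1)) →ₗ[F] (Fin n → F) :=
    LinearMap.pi fun i : Fin n =>
      (lcoeff F (n + i.val)).comp ((LinearMap.mulLeft F B).comp (degreeLT F (n + 1)).subtype)
  have hfin : Module.finrank F (degreeLT F (n + 1)) = n + 1 := by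
    rw [LinearEquiv.finrank_eq (degreeLTEquiv F (n + 1))]
    simp
  have hfd : FiniteDimensional F (degreeLT F (n + 1)) :=
    FiniteDimensional.of_finrank_pos (by rw [hfin]; omega)
  have hker : LinearMap.ker L ≠ ⊥ := by
    apply LinearMap.ker_ne_bot_of_finrank_lt
    rw [hfin]
    simp
  obtain ⟨y, hy, hy0⟩ := Submodule.exists_mem_ne_zero_of_ne_bot hker
  refine ⟨y.1, ?_, ?_, ?_⟩
  · intro h
    apply hy0
    exact Subtype.ext h
  · have := mem_degreeLT.mp y.2
    by_cases h0 : (y : F[X]) = 0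
    · simp [h0]
    · rw [← Nat.lt_succ_iff]
      exact (natDegree_lt_iff_degree_lt h0).mpr this
  · intro i hi1 hi2
    have h := congrFun (LinearMap.mem_ker.mp hy) ⟨i - n, by omega⟩
    simp only [L, LinearMap.pi_apply, LinearMap.comp_apply, Submodule.subtype_apply,
      LinearMap.mulLeft_apply, lcoeff_apply, Pi.zero_apply] at h
    have hni : n + (i - n) = i := by omega
    rwa [hni] at h

/-- The data produced for each `n`. -/
lemma exists_pair (f g : F[X]) (hg : g ≠ 0) (hfg : f.natDegree ≤ g.natDegree) (n : ℕ) :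
    ∃ a b : F[X], b ≠ 0 ∧ (Q f g a b).natDegree ≤ g.natDegree ∧
      (Q f g a b ≠ 0 → n ≤ b.natDegree + g.natDegree) := by
  obtain ⟨B, hB, hQB⟩ := exists_approx f g hg hfg (2 * n)
  obtain ⟨Y, hY0, hYn, hY⟩ := exists_kernel B n
  have hmonic : (X ^ (2 * n) : F[X]).Monic := monic_X_pow _
  set E := (B * Y) %ₘ (X ^ (2 * n)) with hE
  set A := (B * Y) /ₘ (X ^ (2 * n)) with hA
  have hdiv : E + X ^ (2 * n) * A = B * Y := modByMonic_add_div (B * Y) (X ^ (2 * n))
  have hEdeg : E.degree < (2 * n : ℕ) := by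
    have := degree_modByMonic_lt (B * Y) hmonic
    rwa [degree_X_pow] at this
  have hEc : ∀ i, n ≤ i → E.coeff i = 0 := by
    intro i hi
    rcases lt_or_ge i (2 * n) with h | h
    · have h1 := congrArg (fun p => coeff p i) hdiv
      simp only [coeff_add, coeff_X_pow_mul'] at h1
      rw [if_neg (by omega), add_zero, hY i hi h] at h1
      exact h1
    · exact coeff_eq_zero_of_degree_lt (lt_of_lt_of_le hEdeg (by exact_mod_cast h))
  -- degree bound for `E * W`
  have hEmul : ∀ W : F[X], (E * W).natDegree + 1 ≤ n + W.natDegree ∨ E * W = 0 := by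
    intro W
    by_cases hE0 : E = 0
    · right
      simp [hE0]
    · left
      have hlt : E.natDegree < n := by
        by_contra hcon
        push Not at hcon
        exact hE0 (leadingCoeff_eq_zero.mp (hEc _ hcon))
      have := natDegree_mul_le (p := E) (q := W)
      omega
  have hid : X ^ (4 * n) * Q f g A Y =
      Y ^ 2 * Q f g B (X ^ (2 * n)) + (E * E - E * (Y * (2 * B + X * g * X ^ (2 * n)))) := by
    have hXA : X ^ (2 * n) * A = B * Y - E := by
      rw [← hdiv]
      ring
    have : X ^ (4 * n) * Q f g A Y = (X ^ (2 * n) * A) ^ 2 +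
        X * g * (X ^ (2 * n) * A) * (X ^ (2 * n) * Y) + X * f ^ 2 * (X ^ (2 * n) * Y) ^ 2 := by
      unfold Q
      ring
    rw [this, hXA]
    unfold Q
    ring
  have hW : (2 * B + X * g * X ^ (2 * n)).natDegree ≤ 2 * n + g.natDegree + 1 := by
    refine (natDegree_add_le _ _).trans ?_
    rw [max_le_iff]
    constructor
    · have : (2 * B : F[X]) = C 2 * B := by rw [map_ofNat]
      rw [this]
      refine (natDegree_C_mul_le _ _).trans ?_
      omega
    · refine (natDegree_mul_le).trans ?_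
      refine (add_le_add (natDegree_mul_le) le_rfl).trans ?_
      rw [natDegree_X, natDegree_X_pow]
      omega
  set y := Y.natDegree with hy
  set d := g.natDegree with hd
  -- three bounds
  have hb1 : (Y ^ 2 * Q f g B (X ^ (2 * n))).natDegree ≤ 2 * y + (2 * n + d) := by
    refine (natDegree_mul_le).trans ?_
    rw [natDegree_pow]
    omega
  have hb2 : (E * E).natDegree ≤ 2 * n := by
    rcases hEmul E with h | h
    · rcases hEmul 1 with h' | h'
      · simp only [mul_one, natDegree_one] at h'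
        omega
      · rw [mul_one] at h'
        simp [h']
    · simp [h]
  have hb3 : (E * (Y * (2 * B + X * g * X ^ (2 * n)))).natDegree ≤ n + y + (2 * n + d) := by
    rcases hEmul (Y * (2 * B + X * g * X ^ (2 * n))) with h | h
    · have := natDegree_mul_le (p := Y) (q := (2 * B + X * g * X ^ (2 * n)))
      omega
    · simp [h]
  have htot : (X ^ (4 * n) * Q f g A Y).natDegree ≤
      max (2 * y + (2 * n + d)) (max (2 * n) (n + y + (2 * n + d))) := by
    rw [hid]
    refine (natDegree_add_le _ _).trans ?_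
    refine max_le_max hb1 ?_
    refine (natDegree_sub_le _ _).trans ?_
    exact max_le_max hb2 hb3
  refine ⟨A, Y, hY0, ?_, ?_⟩
  · by_cases hQ0 : Q f g A Y = 0
    · simp [hQ0]
    · rw [natDegree_mul (pow_ne_zero _ X_ne_zero) hQ0, natDegree_X_pow] at htot
      simp only [le_max_iff] at htot
      omega
  · intro hQ0
    rw [natDegree_mul (pow_ne_zero _ X_ne_zero) hQ0, natDegree_X_pow] at htot
    simp only [le_max_iff] at htot
    rcases htot with h | h | h
    · omega
    · omega
    · omega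

end forms

section finite

variable {F : Type*} [Field F] [Finite F]

lemma finite_natDegree_le (d : ℕ) : Finite {p : F[X] // p.natDegree ≤ d} := by
  classical
  have : Function.Injective
      (fun p : {p : F[X] // p.natDegree ≤ d} => fun i : Fin (d + 1) => p.1.coeff i) := by
    intro p q h
    apply Subtype.ext
    ext i
    rcases Nat.lt_or_ge d i with hi | hi
    · rw [coeff_eq_zero_of_natDegree_lt (lt_of_le_of_lt p.2 hi),
        coeff_eq_zero_of_natDegree_lt (lt_of_le_of_lt q.2 hi)]
    · exact congrFun h ⟨i, by omega⟩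
  exact Finite.of_injective _ this

/-- The Pell-type lemma. -/
lemma exists_unit (f g : F[X]) (hg : g ≠ 0) (hfg : f.natDegree ≤ g.natDegree)
    (hQ : ∀ a b : F[X], b ≠ 0 → Q f g a b ≠ 0) :
    ∃ a b : F[X], b ≠ 0 ∧ Q f g a b = 1 := by
  classical
  set d := g.natDegree with hd
  let S : Set (F[X] × F[X]) := {p | p.2 ≠ 0 ∧ (Q f g p.1 p.2).natDegree ≤ d}
  have hSinf : S.Infinite := by
    intro hfin
    obtain ⟨M, hM⟩ : ∃ M : ℕ, ∀ p ∈ S, p.2.natDegree ≤ M := by
      obtain ⟨M, hM⟩ := (hfin.image (fun p : F[X] × F[X] => p.2.natDegree)).bddAbove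
      exact ⟨M, fun p hp => hM (Set.mem_image_of_mem _ hp)⟩
    obtain ⟨a, b, hb, h1, h2⟩ := exists_pair f g hg hfg (M + d + 1)
    have h3 := h2 (hQ a b hb)
    have h4 := hM (a, b) ⟨hb, h1⟩
    simp only at h4
    omega
  have : Infinite S := hSinf.to_subtype
  have hT : Finite {p : F[X] // p.natDegree ≤ d} := finite_natDegree_le d
  have hmod : ∀ (p : S) (r : F[X]), (r % (Q f g p.1.1 p.1.2)).natDegree ≤ d := by
    intro p r
    have hne := hQ p.1.1 p.1.2 p.2.1
    have := natDegree_le_natDegree (EuclideanDomain.mod_lt r hne).le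
    exact this.trans p.2.2
  let φ : S → {p : F[X] // p.natDegree ≤ d} × {p : F[X] // p.natDegree ≤ d} ×
      {p : F[X] // p.natDegree ≤ d} := fun p =>
    (⟨Q f g p.1.1 p.1.2, p.2.2⟩, ⟨p.1.1 % (Q f g p.1.1 p.1.2), hmod p _⟩,
      ⟨p.1.2 % (Q f g p.1.1 p.1.2), hmod p _⟩)
  obtain ⟨v, hv⟩ := Finite.exists_infinite_fiber φ
  have hvinf : (φ ⁻¹' {v}).Infinite := Set.infinite_coe_iff.mp hv
  obtain ⟨p1, hp1⟩ := hvinf.nonempty
  have hvinf2 : ((φ ⁻¹' {v}) \ {p : S | p.1 = p1.1 ∨ p.1 = -p1.1}).Infinite := by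
    apply Set.Infinite.sdiff hvinf
    have : {p : S | p.1 = p1.1 ∨ p.1 = -p1.1} =
        (Subtype.val : S → F[X] × F[X]) ⁻¹' {p1.1, -p1.1} := by
      ext p
      simp
    rw [this]
    exact Set.Finite.preimage (Subtype.val_injective.injOn) (by simp)
  obtain ⟨p2, hp2, hp2'⟩ := hvinf2.nonempty
  have hφ : φ p1 = φ p2 := by
    rw [Set.mem_preimage, Set.mem_singleton_iff] at hp1 hp2
    rw [hp1, hp2]
  obtain ⟨⟨a1, b1⟩, hb1, hq1⟩ := p1
  obtain ⟨⟨a2, b2⟩, hb2, hq2⟩ := p2
  simp only at hb1 hb2 hq1 hq2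
  simp only [φ, Prod.mk.injEq, Subtype.mk.injEq] at hφ
  obtain ⟨hN, ha, hb⟩ := hφ
  simp only [Set.mem_ofPred_eq, Prod.mk.injEq, Prod.neg_mk, not_or, not_and] at hp2'
  set N := Q f g a1 b1 with hNdef
  have hN2 : Q f g a2 b2 = N := hN.symm
  have hN0 : N ≠ 0 := hQ a1 b1 hb1
  rw [← hN] at ha hb
  -- divisibility
  have hda : N ∣ a1 - a2 := by
    rw [← EuclideanDomain.mod_eq_zero]
    rw [Polynomial.sub_mod, ha, sub_self]
  have hdb : N ∣ b1 - b2 := by
    rw [← EuclideanDomain.mod_eq_zero]
    rw [Polynomial.sub_mod, hb, sub_self]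
  obtain ⟨s, hs⟩ := hda
  obtain ⟨r, hr⟩ := hdb
  have ha1 : a1 = a2 + N * s := by rw [← hs]; ring
  have hb1' : b1 = b2 + N * r := by rw [← hr]; ring
  -- the quotient
  set U := 1 + s * a2 + X * g * s * b2 + X * f ^ 2 * r * b2 with hU
  set V := r * a2 - s * b2 with hV
  have hNU : N * U = a1 * a2 + X * g * a1 * b2 + X * f ^ 2 * b1 * b2 := by
    have : a1 * a2 + X * g * a1 * b2 + X * f ^ 2 * b1 * b2 =
        Q f g a2 b2 + N * (s * a2 + X * g * s * b2 + X * f ^ 2 * r * b2) := by
      rw [ha1, hb1']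
      unfold Q
      ring
    rw [this, hN2, hU]
    ring
  have hNV : N * V = b1 * a2 - a1 * b2 := by
    rw [ha1, hb1', hV]
    ring
  have hmul : N ^ 2 * Q f g U V = N ^ 2 * 1 := by
    have h1 : N ^ 2 * Q f g U V = (N * U) ^ 2 + X * g * (N * U) * (N * V) +
        X * f ^ 2 * (N * V) ^ 2 := by
      unfold Q
      ring
    rw [h1, hNU, hNV]
    have h2 : (a1 * a2 + X * g * a1 * b2 + X * f ^ 2 * b1 * b2) ^ 2 +
        X * g * (a1 * a2 + X * g * a1 * b2 + X * f ^ 2 * b1 * b2) * (b1 * a2 - a1 * b2) +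
        X * f ^ 2 * (b1 * a2 - a1 * b2) ^ 2 = Q f g a1 b1 * Q f g a2 b2 := by
      unfold Q
      ring
    rw [h2, hN2, ← hNdef]
    ring
  have hQUV : Q f g U V = 1 := mul_left_cancel₀ (pow_ne_zero 2 hN0) hmul
  refine ⟨U, V, ?_, hQUV⟩
  intro hV0
  rw [hV0, mul_zero] at hNV
  have hprop : b1 * a2 = a1 * b2 := (sub_eq_zero.mp hNV.symm)
  have hsq : b2 ^ 2 * N = b1 ^ 2 * N := by
    calc b2 ^ 2 * N = (a1 * b2) ^ 2 + X * g * (a1 * b2) * (b1 * b2) +
          X * f ^ 2 * (b1 * b2) ^ 2 := by
            rw [hNdef]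
            unfold Q
            ring
      _ = (b1 * a2) ^ 2 + X * g * (b1 * a2) * (b1 * b2) + X * f ^ 2 * (b1 * b2) ^ 2 := by
            rw [hprop]
      _ = b1 ^ 2 * Q f g a2 b2 := by
            unfold Q
            ring
      _ = b1 ^ 2 * N := by rw [hN2]
  have hsq2 : b2 ^ 2 = b1 ^ 2 := mul_right_cancel₀ hN0 hsq
  rcases sq_eq_sq_iff_eq_or_eq_neg.mp hsq2 with h | h
  · apply hp2'.1 ?_ h
    rw [h, mul_comm] at hprop
    exact mul_right_cancel₀ hb1 hprop
  · apply hp2'.2 ?_ h
    rw [h] at hprop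
    have : (a2 + a1) * b1 = 0 := by
      have h' : b1 * a2 = -(a1 * b1) := by rw [hprop]; ring
      linear_combination h'
    rcases mul_eq_zero.mp this with h' | h'
    · exact eq_neg_of_add_eq_zero_left h'
    · exact absurd h' hb1

/-- Main equivalence. -/
lemma degree_le_iff (f g : F[X]) :
    f.degree ≤ g.degree ↔ ∃ a b : F[X], b ≠ 0 ∧ Q f g a b * (Q f g a b - 1) = 0 := by
  constructor
  · intro h
    by_cases hex : ∃ a b : F[X], b ≠ 0 ∧ Q f g a b = 0
    · obtain ⟨a, b, hb, h0⟩ := hex
      exact ⟨a, b, hb, by rw [h0, zero_mul]⟩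
    · push Not at hex
      have hf : f ≠ 0 := by
        rintro rfl
        exact hex 0 1 one_ne_zero (by simp [Q])
      have hg : g ≠ 0 := by
        rintro rfl
        rw [degree_zero, le_bot_iff, degree_eq_bot] at h
        exact hf h
      obtain ⟨a, b, hb, h1⟩ := exists_unit f g hg (natDegree_le_natDegree h) hex
      exact ⟨a, b, hb, by rw [h1, sub_self, mul_zero]⟩
  · rintro ⟨a, b, hb, h⟩
    by_contra hcon
    push Not at hcon
    have hpos := natDegree_Q_pos f g a b hcon hb
    rcases mul_eq_zero.mp h with h' | h'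
    · rw [h'] at hpos
      simp at hpos
    · rw [sub_eq_zero.mp h'] at hpos
      simp at hpos

end finite

end Pool.Agent.H58.UED
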