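import Mathlib
import Pool.Agent.H58.UED.Defs
import Pool.Agent.H58.UED.Form

/-!
One equation, uniformly in the finite field.
-/

set_option autoImplicit false

namespace Pool.Agent.H58.UED

open Polynomial FirstOrder

section equations

variable {F : Type*} [Field F]

/-- `b ≠ 0` is positive existential, uniformly in the field. -/
lemma ne_zero_iff (b : F[X]) :
    b ≠ 0 ↔ ∃ u v w : F[X], (X * u + -1) * ((X + 1) * v + -1) = b * w := by
  constructor
  · intro hb
    -- write `b = X ^ k * c` with `c` prime to `X`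
    obtain ⟨c, hc, hXc⟩ := exists_eq_pow_rootMultiplicity_mul_and_not_dvd b hb 0
    rw [map_zero, sub_zero] at hc hXc
    set k := rootMultiplicity 0 b
    have hXirr : Irreducible (X : F[X]) := irreducible_X
    have h1 : IsCoprime (X : F[X]) c := (hXirr.coprime_iff_not_dvd).mpr hXc
    have h2 : IsCoprime (X + 1 : F[X]) (X ^ k) := by
      apply IsCoprime.pow_right
      exact ⟨1, -1, by ring⟩
    obtain ⟨u, x, h3⟩ := h1
    obtain ⟨v, y, h4⟩ := h2
    refine ⟨u, v, x * y, ?_⟩
    have e1 : X * u + -1 = -(x * c) := by linear_combination h3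
    have e2 : (X + 1) * v + -1 = -(y * X ^ k) := by linear_combination h4
    rw [e1, e2, hc]
    ring
  · rintro ⟨u, v, w, h⟩ rfl
    rw [zero_mul] at h
    rcases mul_eq_zero.mp h with h | h
    · have h' : X * u = 1 := by linear_combination h
      exact not_isUnit_X (IsUnit.of_mul_eq_one _ h')
    · have h' : (X + 1) * v = 1 := by linear_combination h
      have h5 : IsUnit (X + 1 : F[X]) := IsUnit.of_mul_eq_one _ h'
      have h6 : (X + 1 : F[X]).degree = 1 := by
        have := degree_X_add_C (1 : F)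
        rwa [map_one] at this
      have h7 := degree_eq_zero_of_isUnit h5
      rw [h6] at h7
      exact one_ne_zero h7

/-- `x = 0` and `y = 0` as one equation, uniformly in the field. -/
lemma and_iff (x y : F[X]) : x * x + X * (y * y) = 0 ↔ x = 0 ∧ y = 0 := by
  constructor
  · intro h
    by_cases hy : y = 0
    · subst hy
      simpa using h
    · exfalso
      have hx : x ≠ 0 := by
        rintro rfl
        rw [mul_zero, zero_add] at h
        exact (mul_ne_zero X_ne_zero (mul_ne_zero hy hy)) h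
      have h1 : x * x = -(X * (y * y)) := by linear_combination h
      have h2 := congrArg natDegree h1
      rw [natDegree_neg, natDegree_mul hx hx, natDegree_mul X_ne_zero (mul_ne_zero hy hy),
        natDegree_mul hy hy, natDegree_X] at h2
      omega
  · rintro ⟨rfl, rfl⟩
    ring

/-- The polynomial expression comparing degrees. -/
noncomputable def P (f g a b u v w : F[X]) : F[X] :=
  (Q f g a b * (Q f g a b + -1)) * (Q f g a b * (Q f g a b + -1)) +
    X * (((X * u + -1) * ((X + 1) * v + -1) + -(b * w)) *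
      ((X * u + -1) * ((X + 1) * v + -1) + -(b * w)))

theorem degree_le_iff_P [Finite F] (f g : F[X]) :
    f.degree ≤ g.degree ↔ ∃ a b u v w : F[X], P f g a b u v w = 0 := by
  rw [degree_le_iff]
  constructor
  · rintro ⟨a, b, hb, h⟩
    obtain ⟨u, v, w, h'⟩ := (ne_zero_iff b).mp hb
    refine ⟨a, b, u, v, w, ?_⟩
    unfold P
    rw [and_iff]
    refine ⟨by rw [← sub_eq_add_neg]; exact h, by rw [h']; ring⟩
  · rintro ⟨a, b, u, v, w, h⟩
    unfold P at h
    rw [and_iff] at h
    refine ⟨a, b, (ne_zero_iff b).mpr ⟨u, v, w, ?_⟩, ?_⟩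
    · linear_combination h.2
    · rw [sub_eq_add_neg]
      exact h.1

theorem degree_eq_iff_P [Finite F] (f g : F[X]) :
    f.degree = g.degree ↔ ∃ a b u v w a' b' u' v' w' : F[X],
      P f g a b u v w * P f g a b u v w + X * (P g f a' b' u' v' w' * P g f a' b' u' v' w') = 0 := by
  constructor
  · intro h
    obtain ⟨a, b, u, v, w, h1⟩ := (degree_le_iff_P f g).mp h.le
    obtain ⟨a', b', u', v', w', h2⟩ := (degree_le_iff_P g f).mp h.ge
    exact ⟨a, b, u, v, w, a', b', u', v', w', (and_iff _ _).mpr ⟨h1, h2⟩⟩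
  · rintro ⟨a, b, u, v, w, a', b', u', v', w', h⟩
    rw [and_iff] at h
    exact le_antisymm ((degree_le_iff_P f g).mpr ⟨a, b, u, v, w, h.1⟩)
      ((degree_le_iff_P g f).mpr ⟨a', b', u', v', w', h.2⟩)

end equations

section terms

variable {α : Type}

/-- Terms. -/
def tZero : Lrt.Term α := Language.Term.func (RtFunc.zero : Lrt.Functions 0) ![]
/-- Terms. -/
def tOne : Lrt.Term α := Language.Term.func (RtFunc.one : Lrt.Functions 0) ![]
/-- Terms. -/
def tT : Lrt.Term α := Language.Term.func (RtFunc.t : Lrt.Functions 0) ![]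
/-- Terms. -/
def tNeg (s : Lrt.Term α) : Lrt.Term α := Language.Term.func (RtFunc.neg : Lrt.Functions 1) ![s]
/-- Terms. -/
def tAdd (s r : Lrt.Term α) : Lrt.Term α :=
  Language.Term.func (RtFunc.add : Lrt.Functions 2) ![s, r]
/-- Terms. -/
def tMul (s r : Lrt.Term α) : Lrt.Term α :=
  Language.Term.func (RtFunc.mul : Lrt.Functions 2) ![s, r]

/-- Value of a term. -/
noncomputable def val (F : Type) [Field F] (e : α → F[X]) (s : Lrt.Term α) : F[X] :=
  @Language.Term.realize Lrt F[X] (polyStructure F) α e s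

variable (F : Type) [Field F] (e : α → F[X])

lemma val_zero : val F e tZero = 0 := rfl
lemma val_one : val F e tOne = 1 := rfl
lemma val_t : val F e tT = X := rfl
lemma val_neg (s : Lrt.Term α) : val F e (tNeg s) = -(val F e s) := rfl
lemma val_add (s r : Lrt.Term α) : val F e (tAdd s r) = val F e s + val F e r := rfl
lemma val_mul (s r : Lrt.Term α) : val F e (tMul s r) = val F e s * val F e r := rfl
lemma val_var (x : α) : val F e (Language.Term.var x) = e x := rfl

/-- The term for `Q`. -/
def tQ (f g a b : Lrt.Term α) : Lrt.Term α :=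
  tAdd (tAdd (tMul a a) (tMul (tMul (tMul tT g) a) b)) (tMul (tMul tT (tMul f f)) (tMul b b))

lemma val_tQ (f g a b : Lrt.Term α) :
    val F e (tQ f g a b) = Q (val F e f) (val F e g) (val F e a) (val F e b) := by
  unfold tQ Q
  simp only [val_add, val_mul, val_t]
  ring

/-- The term for the second half. -/
def tN (b u v w : Lrt.Term α) : Lrt.Term α :=
  tAdd (tMul (tAdd (tMul tT u) (tNeg tOne)) (tAdd (tMul (tAdd tT tOne) v) (tNeg tOne)))
    (tNeg (tMul b w))

/-- The term for `P`. -/
def tP (f g a b u v w : Lrt.Term α) : Lrt.Term α :=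
  tAdd (tMul (tMul (tQ f g a b) (tAdd (tQ f g a b) (tNeg tOne)))
      (tMul (tQ f g a b) (tAdd (tQ f g a b) (tNeg tOne))))
    (tMul tT (tMul (tN b u v w) (tN b u v w)))

lemma val_tP (f g a b u v w : Lrt.Term α) :
    val F e (tP f g a b u v w) = P (val F e f) (val F e g) (val F e a) (val F e b) (val F e u)
      (val F e v) (val F e w) := by
  unfold tP P tN
  simp only [val_add, val_mul, val_t, val_neg, val_one, val_tQ]

/-- The term for equality of degrees. -/
def tE (f g a b u v w a' b' u' v' w' : Lrt.Term α) : Lrt.Term α :=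
  tAdd (tMul (tP f g a b u v w) (tP f g a b u v w))
    (tMul tT (tMul (tP g f a' b' u' v' w') (tP g f a' b' u' v' w')))

end terms

/-- The variables. -/
def vx {m : ℕ} (i : Fin 2) : Lrt.Term (Fin 2 ⊕ Fin m) := Language.Term.var (Sum.inl i)
/-- The quantified variables. -/
def vy {m : ℕ} (i : Fin m) : Lrt.Term (Fin 2 ⊕ Fin m) := Language.Term.var (Sum.inr i)

/-- The formula for `deg x ≤ deg y`. -/
def phiLe : Lrt.Formula (Fin 2) :=
  (Language.Term.bdEqual (tP (vx 0) (vx 1) (vy (m := 5) 0) (vy 1) (vy 2) (vy 3) (vy 4)) tZero).exs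

/-- The formula for `deg x = deg y`. -/
def phiEq : Lrt.Formula (Fin 2) :=
  (Language.Term.bdEqual (tE (vx 0) (vx 1) (vy (m := 10) 0) (vy 1) (vy 2) (vy 3) (vy 4)
    (vy 5) (vy 6) (vy 7) (vy 8) (vy 9)) tZero).exs

lemma holds_exs (F : Type) [Field F] {m : ℕ} (s s' : Lrt.Term (Fin 2 ⊕ Fin m)) (f g : F[X]) :
    Holds F (Language.Term.bdEqual s s').exs f g ↔
      ∃ y : Fin m → F[X], val F (Sum.elim ![f, g] y) s = val F (Sum.elim ![f, g] y) s' := by
  unfold Holds
  let inst := polyStructure F
  refine (Language.BoundedFormula.realize_exs (φ := Language.Term.bdEqual s s')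
    (v := ![f, g])).trans ?_
  constructor
  · rintro ⟨y, h⟩
    exact ⟨y, Language.BoundedFormula.realize_bdEqual s s' |>.mp h⟩
  · rintro ⟨y, h⟩
    exact ⟨y, Language.BoundedFormula.realize_bdEqual s s' |>.mpr h⟩

theorem holds_phiLe (F : Type) [Field F] [Finite F] (f g : F[X]) :
    Holds F phiLe f g ↔ f.degree ≤ g.degree := by
  rw [degree_le_iff_P, phiLe, holds_exs]
  simp only [val_tP, val_zero, vx, vy, val_var, Sum.elim_inl, Sum.elim_inr]
  constructor
  · rintro ⟨y, h⟩
    exact ⟨y 0, y 1, y 2, y 3, y 4, h⟩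
  · rintro ⟨a, b, u, v, w, h⟩
    exact ⟨![a, b, u, v, w], h⟩

theorem holds_phiEq (F : Type) [Field F] [Finite F] (f g : F[X]) :
    Holds F phiEq f g ↔ f.degree = g.degree := by
  rw [degree_eq_iff_P, phiEq, holds_exs]
  simp only [tE, val_add, val_mul, val_t, val_tP, val_zero, vx, vy, val_var, Sum.elim_inl,
    Sum.elim_inr]
  constructor
  · rintro ⟨y, h⟩
    exact ⟨y 0, y 1, y 2, y 3, y 4, y 5, y 6, y 7, y 8, y 9, h⟩
  · rintro ⟨a, b, u, v, w, a', b', u', v', w', h⟩
    exact ⟨![a, b, u, v, w, a', b', u', v', w'], h⟩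

lemma exs_isExistential {L : Language} {α : Type} : ∀ {n : ℕ} (φ : L.BoundedFormula α n),
    φ.IsExistential → (Language.BoundedFormula.exs φ).IsExistential
  | 0, _, h => h
  | _ + 1, φ, h => exs_isExistential φ.ex h.ex

lemma bdEqual_exs_isExistential {m : ℕ} (s s' : Lrt.Term (Fin 2 ⊕ Fin m)) :
    (Language.Term.bdEqual s s').exs.IsExistential :=
  exs_isExistential _ (Language.BoundedFormula.IsAtomic.isExistential
    (Language.BoundedFormula.IsAtomic.equal s s'))

end Pool.Agent.H58.UED
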